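import Pool.Agent.Lib_MP_70e04f_std.HexStd
import Pool.Agent.Lib_MP_70e04f_hex.Generic

/-!
# Three arbitrary multiplicities in different roles; systems in standard form
-/

namespace Pool.MP_70e04f_ag.Std3

open Pool.MP_70e04f_ag.Hex

/-- Three arbitrary multiplicities, with different roles. -/
theorem tri_std {n : ℕ} (u v m s M d : ℕ) (mm : Fin n → ℕ) (α β γ : Fin n) (hαβ : α ≠ β)
    (hαγ : α ≠ γ) (hβγ : β ≠ γ) (hu : 1 ≤ u) (hv : 1 ≤ v) (hcop : Nat.Coprime u v)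
    (h7 : 7 * m + s < 2 * (u * v)) (hM : 2 * m ≤ M)
    (hmm : ∀ i, i ≠ α → i ≠ β → i ≠ γ → mm i ≤ M)
    (hs : (Finset.univ.filter (fun i => i ≠ α ∧ i ≠ β ∧ i ≠ γ ∧ m < mm i)).card ≤ s)
    (h1 : u * (M + 1) + mm α ≤ d + 1) (h2 : v * (M + 1) + mm β ≤ d)
    (h3 : (u + v) * (M + 1) + mm γ ≤ d + 1) (p12 : mm α + mm β ≤ d + 1)
    (p13 : mm α + mm γ ≤ d + 1) (p23 : mm β + mm γ ≤ d + 1) : OK (tri (d + 1)) mm := by
  classical
  have hu0 : 1 ≤ u * (M + 1) := Nat.mul_pos hu (by omega)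
  have hv0 : 1 ≤ v * (M + 1) := Nat.mul_pos hv (by omega)
  have e0 : (u + v) * (M + 1) = u * (M + 1) + v * (M + 1) := by ring
  obtain ⟨T, hT⟩ : ∃ T : Finset (Fin n), T = {α, β, γ} := ⟨_, rfl⟩
  have memT : ∀ i, i ∈ T ↔ i = α ∨ i = β ∨ i = γ := by
    intro i
    rw [hT]; simp
  let f : ↥T ↪ Fin 3 :=
    ⟨fun t => if t.1 = γ then 0 else if t.1 = α then 1 else 2, by
      intro a b hab
      have ha := (memT a.1).1 a.2
      have hb := (memT b.1).1 b.2
      apply Subtype.ext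
      simp only at hab
      rcases ha with ha | ha | ha <;> rcases hb with hb | hb | hb <;> rw [ha, hb] at hab ⊢ <;>
        first
          | rfl
          | (exfalso
             revert hab
             simp [hαβ, hαβ.symm, hαγ, hαγ.symm, hβγ, hβγ.symm])⟩
  have hα : α ∈ T := (memT α).2 (Or.inl rfl)
  have hβ : β ∈ T := (memT β).2 (Or.inr (Or.inl rfl))
  have hγ : γ ∈ T := (memT γ).2 (Or.inr (Or.inr rfl))
  have f0 : f ⟨γ, hγ⟩ = 0 := by simp [f]
  have f1 : f ⟨α, hα⟩ = 1 := by simp [f, hαγ]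
  have f2 : f ⟨β, hβ⟩ = 2 := by simp [f, hβγ, hαβ.symm]
  have s0 : slotv mm T f 0 = mm γ := by rw [← f0]; exact slotv_apply mm T f ⟨γ, hγ⟩
  have s1 : slotv mm T f 1 = mm α := by rw [← f1]; exact slotv_apply mm T f ⟨α, hα⟩
  have s2 : slotv mm T f 2 = mm β := by rw [← f2]; exact slotv_apply mm T f ⟨β, hβ⟩
  apply tri_of_emb mm T f d
  · intro i hi
    rcases (memT i).1 hi with h | h | h <;> rw [h] <;> omega
  · intro i hi j hj hij
    rcases (memT i).1 hi with h | h | h <;> rcases (memT j).1 hj with h' | h' | h' <;>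
      rw [h, h'] at hij ⊢ <;> first | omega | exact absurd rfl hij
  · rw [s0, s1, s2, zed_eq_hex (by omega) (by omega)]
    apply hex_std u v m s M (d - mm γ) (d - mm α) (mm β) (d - mm γ - mm α) _ hu hv hcop h7 hM
    · intro i
      split_ifs with h
      · exact Nat.zero_le _
      · rw [memT] at h
        push Not at h
        exact hmm i h.1 h.2.1 h.2.2
    · refine le_trans (Finset.card_le_card ?_) hs
      intro i hi
      rw [Finset.mem_filter] at hi ⊢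
      have h4 := hi.2
      split_ifs at h4 with h
      · omega
      · rw [memT] at h
        push Not at h
        exact ⟨hi.1, h.1, h.2.1, h.2.2, h4⟩
    · omega
    · omega
    · omega
    · omega
    · omega

/-- Three arbitrary multiplicities: general complex points. -/
theorem gen_std (n u v m s M d D : ℕ) (mm : Fin n → ℕ) (α β γ : Fin n) (hαβ : α ≠ β)
    (hαγ : α ≠ γ) (hβγ : β ≠ γ) (hu : 1 ≤ u) (hv : 1 ≤ v) (hcop : Nat.Coprime u v)
    (h7 : 7 * m + s < 2 * (u * v)) (hM : 2 * m ≤ M)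
    (hmm : ∀ i, i ≠ α → i ≠ β → i ≠ γ → mm i ≤ M)
    (hs : (Finset.univ.filter (fun i => i ≠ α ∧ i ≠ β ∧ i ≠ γ ∧ m < mm i)).card ≤ s)
    (h1 : u * (M + 1) + mm α ≤ d + 1) (h2 : v * (M + 1) + mm β ≤ d)
    (h3 : (u + v) * (M + 1) + mm γ ≤ d + 1) (p12 : mm α + mm β ≤ d + 1)
    (p13 : mm α + mm γ ≤ d + 1) (p23 : mm β + mm γ ≤ d + 1)
    (hD : D = d ∨ D ≤ d ∧ (d + 1) * (d + 2) ≤ ∑ i, mm i * (mm i + 1)) : GenExp D mm := by
  have h := genExp_of_OK d mm (tri_std u v m s M d mm α β γ hαβ hαγ hβγ hu hv hcop h7 hM hmm hs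
    h1 h2 h3 p12 p13 p23)
  rcases hD with rfl | ⟨h4, h5⟩
  · exact h
  · exact h.le h4 h5

/-- Standard form, sorted. -/
lemma gen_sorted (n m d : ℕ) (mm : Fin n → ℕ) (α β γ : Fin n) (hαβ : α ≠ β)
    (hαγ : α ≠ γ) (hβγ : β ≠ γ) (hm : 1 ≤ m) (h12 : mm β ≤ mm α) (h23 : mm γ ≤ mm β)
    (hγ : m ≤ mm γ) (hmm : ∀ i, i ≠ α → i ≠ β → i ≠ γ → mm i ≤ m)
    (hstd : mm α + mm β + mm γ ≤ d) (hd : 14 * m ^ 2 + 10 * m + 2 ≤ d) : GenExp d mm := by
  obtain ⟨v, hv⟩ : ∃ v, v = (7 * m + 2) / 2 := ⟨_, rfl⟩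
  have hv1 : 7 * m + 1 ≤ 2 * v := by omega
  have hv2 : 2 * v ≤ 7 * m + 2 := by omega
  have hv3 : 2 * v * (2 * m + 1) ≤ 14 * m ^ 2 + 11 * m + 2 :=
    (Nat.mul_le_mul_right _ hv2).trans (le_of_eq (by ring))
  have e1 : 2 * v * (2 * m + 1) = 2 * (v * (2 * m + 1)) := by ring
  have e2 : (1 + v) * (2 * m + 1) = 2 * m + 1 + v * (2 * m + 1) := by ring
  have hmsq : m ≤ m ^ 2 := by nlinarith
  apply gen_std n 1 v m 0 (2 * m) d d mm α β γ hαβ hαγ hβγ le_rfl (by omega)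
    (Nat.coprime_one_left v) (by omega) le_rfl
  · intro i a b c
    have := hmm i a b c
    omega
  · rw [Nat.le_zero, Finset.card_eq_zero, Finset.filter_eq_empty_iff]
    rintro i _ ⟨a, b, c, h⟩
    have := hmm i a b c
    omega
  · omega
  · omega
  · omega
  · omega
  · omega
  · omega
  · exact Or.inl rfl

/-- Standard form. -/
theorem gen_standard (n m d : ℕ) (mm : Fin n → ℕ) (α β γ : Fin n) (hαβ : α ≠ β)
    (hαγ : α ≠ γ) (hβγ : β ≠ γ) (hm : 1 ≤ m) (hα : m ≤ mm α) (hβ : m ≤ mm β)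
    (hγ : m ≤ mm γ) (hmm : ∀ i, i ≠ α → i ≠ β → i ≠ γ → mm i ≤ m)
    (hstd : mm α + mm β + mm γ ≤ d) (hd : 14 * m ^ 2 + 10 * m + 2 ≤ d) : GenExp d mm := by
  rcases Nat.le_total (mm β) (mm α) with h1 | h1
  · rcases Nat.le_total (mm γ) (mm β) with h2 | h2
    · exact gen_sorted n m d mm α β γ hαβ hαγ hβγ hm h1 h2 hγ hmm hstd hd
    · rcases Nat.le_total (mm γ) (mm α) with h3 | h3
      · exact gen_sorted n m d mm α γ β hαγ hαβ hβγ.symm hm h3 h2 hβ
          (fun i a b c => hmm i a c b) (by omega) hd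
      · exact gen_sorted n m d mm γ α β hαγ.symm hβγ.symm hαβ hm h3 h1 hβ
          (fun i a b c => hmm i b c a) (by omega) hd
  · rcases Nat.le_total (mm γ) (mm α) with h2 | h2
    · exact gen_sorted n m d mm β α γ hαβ.symm hβγ hαγ hm h1 h2 hγ
        (fun i a b c => hmm i b a c) (by omega) hd
    · rcases Nat.le_total (mm γ) (mm β) with h3 | h3
      · exact gen_sorted n m d mm β γ α hβγ hαβ.symm hαγ.symm hm h3 h2 hα
          (fun i a b c => hmm i c a b) (by omega) hd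
      · exact gen_sorted n m d mm γ β α hβγ.symm hαγ.symm hαβ.symm hm h3 h1 hα
          (fun i a b c => hmm i c b a) (by omega) hd

end Pool.MP_70e04f_ag.Std3
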