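import Pool.Agent.Lib_MP_70e04f_hex.HexThree

/-!
# The number of points of a shrunken hexagon, without the condition `A ≤ B`
-/

namespace Pool.MP_70e04f_ag.Std3

open Pool.MP_70e04f_ag.Hex

lemma hex_col (A B g e : ℕ) : (hex A B g e).card =
    ∑ a ∈ Finset.range (A + 1), ((B + 1 - (e - (A - a))) - (g - a)) := by
  unfold hex
  rw [Finset.card_filter, Finset.sum_product]
  refine Finset.sum_congr rfl fun a ha => ?_
  rw [Finset.mem_range] at ha
  rw [← Finset.card_filter]
  have h : (Finset.range (B + 1)).filter (fun b => g ≤ (a, b).1 + (a, b).2 ∧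
      (a, b).1 + (a, b).2 + e ≤ A + B) = Finset.Ico (g - a) (B + 1 - (e - (A - a))) := by
    ext b
    rw [Finset.mem_filter, Finset.mem_range, Finset.mem_Ico]
    dsimp only
    omega
  rw [h, Nat.card_Ico]

lemma T2_succ' (x : ℤ) : T2 (x + 1) - T2 x = 2 * max (x + 1) 0 := by
  rcases le_or_gt 0 x with h | h
  · rw [T2_of_nonneg h, T2_of_nonneg (by omega), max_eq_left (by omega)]; ring
  · rw [T2_of_nonpos (show x + 1 ≤ 0 by omega), T2_of_nonpos (by omega),
      max_eq_right (by omega)]; ring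

lemma sum_T2 (g n : ℕ) : 2 * ∑ a ∈ Finset.range n, ((g - a : ℕ) : ℤ) =
    T2 g - T2 ((g : ℤ) - n) := by
  induction n with
  | zero => simp
  | succ n ih =>
    rw [Finset.sum_range_succ, mul_add, ih]
    have h := T2_succ' ((g : ℤ) - (n + 1 : ℕ))
    have e1 : (g : ℤ) - (n + 1 : ℕ) + 1 = (g : ℤ) - n := by push_cast; ring
    rw [e1] at h
    have h2 : ((g - n : ℕ) : ℤ) = max ((g : ℤ) - n) 0 := by
      rcases Nat.le_total n g with h3 | h3
      · rw [Nat.cast_sub h3, max_eq_left (by omega)]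
      · rw [Nat.sub_eq_zero_of_le h3, max_eq_right (by omega)]; rfl
    rw [h2]
    linarith

/-- The number of points of the hexagon. -/
theorem card_hex' (A B g e : ℕ) (hg : g ≤ B + 1) (he : e ≤ B + 1)
    (hge : g + e ≤ A + B + 1) : 2 * ((hex A B g e).card : ℤ) = F2 A B g e := by
  rw [hex_col]
  push_cast
  have h1 : ∑ a ∈ Finset.range (A + 1), (((B + 1 - (e - (A - a)) - (g - a) : ℕ)) : ℤ) =
      ∑ a ∈ Finset.range (A + 1), (((B : ℤ) + 1) - ((e - (A + 1 - 1 - a) : ℕ) : ℤ) -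
        ((g - a : ℕ) : ℤ)) := by
    refine Finset.sum_congr rfl fun a ha => ?_
    rw [Finset.mem_range] at ha
    omega
  rw [h1, Finset.sum_sub_distrib, Finset.sum_sub_distrib,
    Finset.sum_range_reflect (fun a => ((e - a : ℕ) : ℤ)) (A + 1), Finset.sum_const,
    Finset.card_range, nsmul_eq_mul, mul_sub, mul_sub, sum_T2, sum_T2]
  unfold F2
  have h2 : (g : ℤ) - (A + 1 : ℕ) = (g : ℤ) - A - 1 := by push_cast; ring
  have h3 : (e : ℤ) - (A + 1 : ℕ) = (e : ℤ) - A - 1 := by push_cast; ring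
  rw [h2, h3]
  push_cast
  ring

lemma hexJ_bij (A B g e K L : ℕ) (hL : L ≤ K) (hj : K ≤ A) (hB : L ≤ B) :
    ((hex A B g e).filter (fun q => K ≤ q.1 ∧ (q.1 - K, q.2 + L) ∈ hex A B g e)).card =
      (hex (A - K) (B - L) (g - L) (e - L)).card := by
  refine Finset.card_bij' (fun q _ => (q.1 - K, q.2)) (fun q _ => (q.1 + K, q.2)) ?_ ?_ ?_ ?_
  · intro q hq
    rw [Finset.mem_filter, mem_hex, mem_hex] at hq
    rw [mem_hex]
    dsimp only at hq ⊢
    omega
  · intro q hq
    rw [mem_hex] at hq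
    rw [Finset.mem_filter, mem_hex, mem_hex]
    dsimp only
    omega
  · intro q hq
    rw [Finset.mem_filter] at hq
    apply Prod.ext
    · dsimp only
      omega
    · rfl
  · intro q _
    apply Prod.ext
    · dsimp only
      omega
    · rfl

lemma T2_natsub (g L : ℕ) : T2 ((g - L : ℕ) : ℤ) = T2 ((g : ℤ) - L) := by
  by_cases h : L ≤ g
  · rw [Nat.cast_sub h]
  · have h1 : g - L = 0 := by omega
    rw [h1, T2_of_nonpos (by omega : (g : ℤ) - L ≤ 0)]
    simp [T2]

lemma T2_natsub' (g L : ℕ) {x : ℤ} (hx : 0 ≤ x) :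
    T2 (((g - L : ℕ) : ℤ) - x - 1) = T2 ((g : ℤ) - L - x - 1) := by
  by_cases h : L ≤ g
  · rw [Nat.cast_sub h]
  · have h1 : g - L = 0 := by omega
    rw [h1, T2_of_nonpos (by omega : (g : ℤ) - L - x - 1 ≤ 0), T2_of_nonpos (by
      push_cast
      omega)]

/-- The number of points of the shrunken hexagon. -/
theorem two_card_hexJ' (k l A B g e j : ℕ) (hlk : l ≤ k) (hA : j * k ≤ A + 1) (hB : j * l ≤ B + 1)
    (hg : g ≤ B + 1) (he : e ≤ B + 1) (hdis : g + e + j * k ≤ A + B + 1 + j * l) :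
    2 * ((hexJ k l A B g e j).card : ℤ) =
      F2 ((A : ℤ) - j * k) ((B : ℤ) - j * l) ((g : ℤ) - j * l) ((e : ℤ) - j * l) := by
  have hL : j * l ≤ j * k := Nat.mul_le_mul_left j hlk
  have hgz : (g : ℤ) ≤ B + 1 := by exact_mod_cast hg
  have hez : (e : ℤ) ≤ B + 1 := by exact_mod_cast he
  rcases Nat.lt_or_ge B (j * l) with h1 | h1
  · -- `B - j l = -1`
    have hB' : j * l = B + 1 := by omega
    have hBz : (B : ℤ) - j * l = -1 := by
      have : ((j * l : ℕ) : ℤ) = ((B + 1 : ℕ) : ℤ) := by rw [hB']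
      push_cast at this
      linarith
    have h0 : (hexJ k l A B g e j).card = 0 := by
      rw [Finset.card_eq_zero, Finset.eq_empty_iff_forall_notMem]
      intro q hq
      unfold hexJ at hq
      rw [Finset.mem_filter, mem_hex, mem_hex] at hq
      dsimp only at hq
      omega
    have hAz : (-1 : ℤ) ≤ (A : ℤ) - j * k := by
      have : ((j * k : ℕ) : ℤ) ≤ ((A + 1 : ℕ) : ℤ) := by exact_mod_cast hA
      push_cast at this
      linarith
    rw [h0]
    unfold F2
    rw [T2_of_nonpos (show (g : ℤ) - j * l ≤ 0 by linarith),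
      T2_of_nonpos (show (e : ℤ) - j * l ≤ 0 by linarith),
      T2_of_nonpos (show (g : ℤ) - j * l - (A - j * k) - 1 ≤ 0 by linarith),
      T2_of_nonpos (show (e : ℤ) - j * l - (A - j * k) - 1 ≤ 0 by linarith), hBz]
    push_cast
    ring
  rcases Nat.lt_or_ge A (j * k) with h2 | h2
  · -- `A - j k = -1`
    have hA' : j * k = A + 1 := by omega
    have hAz : (A : ℤ) - j * k = -1 := by
      have : ((j * k : ℕ) : ℤ) = ((A + 1 : ℕ) : ℤ) := by rw [hA']
      push_cast at this
      linarith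
    rw [card_hexJ_zero k l A B g e j h2]
    unfold F2
    rw [hAz, show (g : ℤ) - j * l - (-1) - 1 = g - j * l by ring,
      show (e : ℤ) - j * l - (-1) - 1 = e - j * l by ring]
    push_cast
    ring
  · have h3 : (hexJ k l A B g e j).card =
        (hex (A - j * k) (B - j * l) (g - j * l) (e - j * l)).card :=
      hexJ_bij A B g e (j * k) (j * l) hL h2 h1
    rw [h3, card_hex' (A - j * k) (B - j * l) (g - j * l) (e - j * l) (by omega) (by omega)
      (by omega)]
    unfold F2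
    rw [T2_natsub, T2_natsub, Nat.cast_sub h2, Nat.cast_sub h1,
      T2_natsub' g (j * l) (by
        have : ((j * k : ℕ) : ℤ) ≤ (A : ℤ) := by exact_mod_cast h2
        linarith : (0 : ℤ) ≤ (A : ℤ) - ((j * k : ℕ) : ℤ)),
      T2_natsub' e (j * l) (by
        have : ((j * k : ℕ) : ℤ) ≤ (A : ℤ) := by exact_mod_cast h2
        linarith : (0 : ℤ) ≤ (A : ℤ) - ((j * k : ℕ) : ℤ))]
    push_cast
    rfl

end Pool.MP_70e04f_ag.Std3
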