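import Pool.Agent.Lib_MP_70e04f_hex.Slopes

/-!
# The first difference of `F2`
-/

namespace Pool.MP_70e04f_ag.Std3

open Pool.MP_70e04f_ag.Hex

lemma dT_nonneg (g l : ℤ) (hg : 0 ≤ g) (hl : 1 ≤ l) : T2 (g + l) - T2 g = 2 * l * g + l ^ 2 + l := by
  rw [T2_of_nonneg (by omega), T2_of_nonneg hg]
  ring

lemma dT_neg (g l : ℤ) (hg : g < 0) (hl : 1 ≤ l) : T2 (g + l) - T2 g ≤ l ^ 2 - l := by
  rw [T2_of_nonpos hg.le]
  rcases le_or_gt 0 (g + l) with h | h
  · rw [T2_of_nonneg h]
    nlinarith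
  · rw [T2_of_nonpos h.le]
    nlinarith

lemma cT_le (y r : ℤ) (hr : 1 ≤ r) : T2 y - T2 (y - r) ≤ 2 * r * max 0 y := by
  rcases le_or_gt y 0 with h | h
  · rw [T2_of_nonpos h, T2_of_nonpos (by omega), max_eq_left h]
    simp
  · rw [T2_of_nonneg h.le, max_eq_right h.le]
    rcases le_or_gt 0 (y - r) with h1 | h1
    · rw [T2_of_nonneg h1]
      nlinarith
    · rw [T2_of_nonpos h1.le]
      nlinarith

/-- The first difference of `F2`. -/
lemma first_diff (X Y g e l r : ℤ) (hX : 0 ≤ X) (hY : 0 ≤ Y) (hl : 1 ≤ l) (hr : 1 ≤ r)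
    (hg : g ≤ Y) (he : e ≤ Y) (hge : g + e ≤ X + Y - 1) :
    2 * l * r ≤ F2 (X - 1 + (l + r)) (Y - 1 + l) (g + l) (e + l) - F2 (X - 1) (Y - 1) g e := by
  unfold F2
  rw [show g + l - (X - 1 + (l + r)) - 1 = g - X - r by ring,
    show e + l - (X - 1 + (l + r)) - 1 = e - X - r by ring,
    show g - (X - 1) - 1 = g - X by ring, show e - (X - 1) - 1 = e - X by ring]
  have c1 := cT_le (g - X) r hr
  have c2 := cT_le (e - X) r hr
  have hXl : 0 ≤ X * l := mul_nonneg hX (by omega)
  have hlr : 0 ≤ l * r := mul_nonneg (by omega) (by omega)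
  have hYr : 0 ≤ Y * r := mul_nonneg hY (by omega)
  rcases lt_or_ge g 0 with h1 | h1
  · have d1 := dT_neg g l h1 hl
    rw [max_eq_left (by omega : g - X ≤ 0)] at c1
    rcases lt_or_ge e 0 with h2 | h2
    · have d2 := dT_neg e l h2 hl
      rw [max_eq_left (by omega : e - X ≤ 0)] at c2
      nlinarith
    · have d2 := dT_nonneg e l h2 hl
      have h3 : max 0 (e - X) ≤ Y := max_le hY (by omega)
      have h4 : 2 * r * max 0 (e - X) ≤ 2 * r * Y := mul_le_mul_of_nonneg_left h3 (by omega)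
      have h5 : 2 * l * e ≤ 2 * l * Y := mul_le_mul_of_nonneg_left he (by omega)
      nlinarith
  · have d1 := dT_nonneg g l h1 hl
    rcases lt_or_ge e 0 with h2 | h2
    · have d2 := dT_neg e l h2 hl
      rw [max_eq_left (by omega : e - X ≤ 0)] at c2
      have h3 : max 0 (g - X) ≤ Y := max_le hY (by omega)
      have h4 : 2 * r * max 0 (g - X) ≤ 2 * r * Y := mul_le_mul_of_nonneg_left h3 (by omega)
      have h5 : 2 * l * g ≤ 2 * l * Y := mul_le_mul_of_nonneg_left hg (by omega)
      nlinarith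
    · have d2 := dT_nonneg e l h2 hl
      have h3 : max 0 (g - X) + max 0 (e - X) ≤ Y := by
        rcases le_or_gt (g - X) 0 with h | h
        · rw [max_eq_left h]
          have : max 0 (e - X) ≤ Y := max_le hY (by omega)
          omega
        · rcases le_or_gt (e - X) 0 with h' | h'
          · rw [max_eq_left h']
            have : max 0 (g - X) ≤ Y := max_le hY (by omega)
            omega
          · rw [max_eq_right h.le, max_eq_right h'.le]
            omega
      have h4 : 2 * r * (max 0 (g - X) + max 0 (e - X)) ≤ 2 * r * Y :=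
        mul_le_mul_of_nonneg_left h3 (by omega)
      have h5 : 2 * l * (g + e) ≤ 2 * l * (X + Y - 1) := mul_le_mul_of_nonneg_left hge (by omega)
      nlinarith

end Pool.MP_70e04f_ag.Std3
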