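import Pool.Agent.Lib_MP_70e04f_hex.Fibres
import Mathlib.Combinatorics.Additive.CauchyDavenport

/-!
# The slopes beyond the regular range: a sumset bound
-/

namespace Pool.MP_70e04f_ag.Std3

open Pool.MP_70e04f_ag.Hex
open scoped Pointwise

/-- The exponents of the sections of the class of the curve, without one vertex. -/
def dl (k l : ℕ) : Finset (ℕ × ℕ) :=
  (Finset.range k ×ˢ Finset.range (l + 1)).filter (fun p => l ≤ p.1 + p.2 ∧ p.1 + p.2 ≤ k)

lemma mem_dl {k l : ℕ} {p : ℕ × ℕ} :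
    p ∈ dl k l ↔ p.1 < k ∧ p.2 ≤ l ∧ l ≤ p.1 + p.2 ∧ p.1 + p.2 ≤ k := by
  unfold dl
  rw [Finset.mem_filter, Finset.mem_product, Finset.mem_range, Finset.mem_range]
  omega

lemma card_dl (k l : ℕ) (hlk : l ≤ k) : (l + 1) * (k - l + 1) ≤ (dl k l).card + 1 := by
  have h : (((Finset.range (l + 1)) ×ˢ (Finset.range (k - l + 1))).erase (0, k - l)).card ≤
      (dl k l).card := by
    apply Finset.card_le_card_of_injOn (fun p => (l - p.1 + p.2, p.1))
    · intro p hp
      rw [Finset.mem_coe, Finset.mem_erase, Finset.mem_product, Finset.mem_range,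
        Finset.mem_range] at hp
      rw [Finset.mem_coe, mem_dl]
      dsimp only
      have h1 : ¬ (p.1 = 0 ∧ p.2 = k - l) := by
        rintro ⟨h1, h2⟩
        exact hp.1 (Prod.ext h1 h2)
      omega
    · rintro ⟨a, b⟩ ha ⟨c, d⟩ hc h
      simp only [Prod.mk.injEq] at h ⊢
      omega
  rw [Finset.card_erase_of_mem (by simp), Finset.card_product, Finset.card_range,
    Finset.card_range] at h
  omega

lemma dl_inj (k l k' l' : ℕ) (hkl : l * k' = k * l' + 1) {p q : ℕ × ℕ} (hp : p ∈ dl k l)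
    (hq : q ∈ dl k l) (h : l * p.1 + k * p.2 = l * q.1 + k * q.2) : p = q := by
  rw [mem_dl] at hp hq
  have h1 : (l : ℤ) * ((p.1 : ℤ) - q.1) = k * ((q.2 : ℤ) - p.2) := by
    have : ((l * p.1 + k * p.2 : ℕ) : ℤ) = ((l * q.1 + k * q.2 : ℕ) : ℤ) := by exact_mod_cast h
    push_cast at this
    linarith
  have h2 : (l : ℤ) * k' = k * l' + 1 := by exact_mod_cast hkl
  have h3 : (p.1 : ℤ) - q.1 = k * (k' * ((q.2 : ℤ) - p.2) - l' * ((p.1 : ℤ) - q.1)) := by
    linear_combination (k' : ℤ) * h1 - ((p.1 : ℤ) - q.1) * h2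
  obtain ⟨z, hz⟩ : ∃ z : ℤ, z = k' * ((q.2 : ℤ) - p.2) - l' * ((p.1 : ℤ) - q.1) := ⟨_, rfl⟩
  rw [← hz] at h3
  have hk : (0 : ℤ) < k := by
    have : 0 < k := by omega
    exact_mod_cast this
  have h4 : z = 0 := by
    rcases lt_trichotomy z 0 with h5 | h5 | h5
    · exfalso
      have : (k : ℤ) * z ≤ -k := by nlinarith
      have h6 : (q.1 : ℤ) < k := by exact_mod_cast hq.1
      have h7 : (0 : ℤ) ≤ p.1 := Int.natCast_nonneg _
      linarith
    · exact h5
    · exfalso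
      have : (k : ℤ) ≤ (k : ℤ) * z := by nlinarith
      have h6 : (p.1 : ℤ) < k := by exact_mod_cast hp.1
      have h7 : (0 : ℤ) ≤ q.1 := Int.natCast_nonneg _
      linarith
  rw [h4, mul_zero] at h3
  have h5 : p.1 = q.1 := by omega
  have hk0 : 0 < k := by exact_mod_cast hk
  have h6 : p.2 = q.2 := by
    rw [h5] at h
    have : k * p.2 = k * q.2 := by omega
    exact Nat.eq_of_mul_eq_mul_left hk0 this
  exact Prod.ext h5 h6

/-- The sumset bound for the rows. -/
theorem rows_sumset {k l k' l' : ℕ} (hkl : l * k' = k * l' + 1) (hlk : l ≤ k) {A B g e : ℕ}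
    {r0 c : ℕ → ℕ} {P Q : Finset (ℕ × ℕ)} {φ : ↥(hex A B g e) ≃ ↥P}
    (h1 : ∀ q : ↥(hex A B g e), (φ q).1.1 = l * q.1.1 + k * q.1.2 ∧
        (φ q).1.2 = l' * q.1.1 + k' * q.1.2)
    (h2 : ∀ t r, (t, r) ∈ P ↔ r0 t ≤ r ∧ r < r0 t + c t)
    (h3 : ∀ t j, (t, j) ∈ Q ↔ j < c t) (j : ℕ) (hj : 1 ≤ rowc Q (j + 1)) :
    rowc Q (j + 1) + (l + 1) * (k - l + 1) ≤ rowc Q j + 2 := by
  classical
  have h2z : (l : ℤ) * k' = k * l' + 1 := by exact_mod_cast hkl
  -- the rows as sets of fibres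
  set F : ℕ → Finset ℕ := fun j => (Q.filter (fun q => q.2 = j)).image Prod.fst with hF
  have hFc : ∀ j, (F j).card = rowc Q j := by
    intro j
    rw [hF]
    simp only
    rw [Finset.card_image_of_injOn]
    · rfl
    · rintro ⟨a, b⟩ ha ⟨c, d⟩ hc h
      rw [Finset.mem_coe, Finset.mem_filter] at ha hc
      have e1 : b = j := ha.2
      have e2 : d = j := hc.2
      have e3 : a = c := h
      rw [e1, e2, e3]
  have memF : ∀ j t, t ∈ F j ↔ j < c t := by
    intro j t
    rw [hF]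
    simp only
    rw [Finset.mem_image]
    constructor
    · rintro ⟨q, hq, rfl⟩
      rw [Finset.mem_filter] at hq
      rw [← h3, ← hq.2]
      exact hq.1
    · intro h
      exact ⟨(t, j), Finset.mem_filter.2 ⟨(h3 t j).2 h, rfl⟩, rfl⟩
  have hA : ∀ j t, t ∈ F j → ∃ q ∈ hexJ k l A B g e j, l * q.1 + k * q.2 = t := by
    intro j t ht
    rw [memF] at ht
    have p0 : (t, r0 t) ∈ P := (h2 t _).2 ⟨le_rfl, by omega⟩
    have p1 : (t, r0 t + j) ∈ P := (h2 t _).2 ⟨by omega, by omega⟩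
    obtain ⟨q0, hq0⟩ := φ.surjective ⟨_, p0⟩
    obtain ⟨q1, hq1⟩ := φ.surjective ⟨_, p1⟩
    have a0 := h1 q0
    have a1 := h1 q1
    rw [hq0] at a0
    rw [hq1] at a1
    obtain ⟨b0, c0⟩ := a0
    obtain ⟨b1, c1⟩ := a1
    dsimp only at b0 c0 b1 c1
    have e1 : (l : ℤ) * ((q1.1.1 : ℤ) - q0.1.1) + k * ((q1.1.2 : ℤ) - q0.1.2) = 0 := by
      have x0 : (t : ℤ) = l * q0.1.1 + k * q0.1.2 := by exact_mod_cast b0
      have x1 : (t : ℤ) = l * q1.1.1 + k * q1.1.2 := by exact_mod_cast b1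
      linarith
    have e2 : (l' : ℤ) * ((q1.1.1 : ℤ) - q0.1.1) + k' * ((q1.1.2 : ℤ) - q0.1.2) = j := by
      have x0 : (r0 t : ℤ) = l' * q0.1.1 + k' * q0.1.2 := by exact_mod_cast c0
      have x1 : (r0 t : ℤ) + j = l' * q1.1.1 + k' * q1.1.2 := by exact_mod_cast c1
      linarith
    have e3 : (q1.1.1 : ℤ) - q0.1.1 = -(j * k) := by
      linear_combination k' * e1 - k * e2 - ((q1.1.1 : ℤ) - q0.1.1) * h2z
    have e4 : (q1.1.2 : ℤ) - q0.1.2 = j * l := by
      linear_combination (-(l' : ℤ)) * e1 + l * e2 - ((q1.1.2 : ℤ) - q0.1.2) * h2z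
    have e3' : q0.1.1 = q1.1.1 + j * k := by
      have : (q0.1.1 : ℤ) = ((q1.1.1 + j * k : ℕ) : ℤ) := by push_cast; linarith
      exact_mod_cast this
    have e4' : q1.1.2 = q0.1.2 + j * l := by
      have : (q1.1.2 : ℤ) = ((q0.1.2 + j * l : ℕ) : ℤ) := by push_cast; linarith
      exact_mod_cast this
    refine ⟨q0.1, ?_, b0.symm⟩
    unfold hexJ
    rw [Finset.mem_filter]
    refine ⟨q0.2, by omega, ?_⟩
    have e5 : (q0.1.1 - j * k, q0.1.2 + j * l) = q1.1 := by
      apply Prod.ext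
      · dsimp only; omega
      · dsimp only; omega
    rw [e5]
    exact q1.2
  have hB : ∀ j, ∀ q ∈ hexJ k l A B g e j, l * q.1 + k * q.2 ∈ F j := by
    intro j q hq
    unfold hexJ at hq
    rw [Finset.mem_filter] at hq
    obtain ⟨hq0, hq1, hq2⟩ := hq
    have p0 := (φ ⟨q, hq0⟩).2
    have p1 := (φ ⟨_, hq2⟩).2
    have a0 := h1 ⟨q, hq0⟩
    have a1 := h1 ⟨_, hq2⟩
    dsimp only at a0 a1
    have e0 : (φ ⟨q, hq0⟩).1 = (l * q.1 + k * q.2, l' * q.1 + k' * q.2) := Prod.ext a0.1 a0.2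
    have e1 : (φ ⟨_, hq2⟩).1 = (l * q.1 + k * q.2, l' * q.1 + k' * q.2 + j) := by
      apply Prod.ext
      · rw [a1.1]
        dsimp only
        have : (((l * (q.1 - j * k) + k * (q.2 + j * l) : ℕ)) : ℤ) =
            ((l * q.1 + k * q.2 : ℕ) : ℤ) := by
          push_cast [Nat.cast_sub hq1]
          ring
        exact_mod_cast this
      · rw [a1.2]
        dsimp only
        have : (((l' * (q.1 - j * k) + k' * (q.2 + j * l) : ℕ)) : ℤ) =
            ((l' * q.1 + k' * q.2 + j : ℕ) : ℤ) := by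
          push_cast [Nat.cast_sub hq1]
          linear_combination (j : ℤ) * h2z
        exact_mod_cast this
    rw [e0, h2] at p0
    rw [e1, h2] at p1
    rw [memF]
    omega
  -- the sumset
  set Y : Finset ℕ := (dl k l).image (fun p => l * p.1 + k * p.2) with hY
  have hYc : Y.card = (dl k l).card := by
    rw [hY]
    apply Finset.card_image_of_injOn
    intro p hp q hq h
    exact dl_inj k l k' l' hkl (Finset.mem_coe.1 hp) (Finset.mem_coe.1 hq) h
  have hXne : (F (j + 1)).Nonempty := by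
    rw [← Finset.card_pos, hFc]; omega
  have hYne : Y.Nonempty := by
    rw [← Finset.card_pos, hYc]
    have h5 := card_dl k l hlk
    have hl0 : 0 < l := by
      rcases Nat.eq_zero_or_pos l with h | h
      · subst h; simp at hkl
      · exact h
    nlinarith [Nat.zero_le (k - l)]
  have hcd := cauchy_davenport_add_of_linearOrder_isCancelAdd hXne hYne
  have hsub : ∀ s ∈ F (j + 1) + Y, l * k ≤ s ∧ s - l * k ∈ F j := by
    intro s hs
    rw [Finset.mem_add] at hs
    obtain ⟨t, ht, y, hy, rfl⟩ := hs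
    rw [hY, Finset.mem_image] at hy
    obtain ⟨p, hp, rfl⟩ := hy
    rw [mem_dl] at hp
    obtain ⟨q, hq, rfl⟩ := hA (j + 1) t ht
    unfold hexJ at hq
    rw [Finset.mem_filter, mem_hex, mem_hex] at hq
    dsimp only at hq
    rw [Nat.succ_mul, Nat.succ_mul] at hq
    have hjl : j * l ≤ j * k := Nat.mul_le_mul_left j hlk
    have hq1 : k ≤ q.1 := by omega
    have hq2 : l * k ≤ l * q.1 := Nat.mul_le_mul_left l hq1
    refine ⟨by omega, ?_⟩
    have hq' : (q.1 + p.1 - k, q.2 + p.2) ∈ hexJ k l A B g e j := by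
      unfold hexJ
      rw [Finset.mem_filter, mem_hex, mem_hex]
      dsimp only
      omega
    have h5 := hB j _ hq'
    dsimp only at h5
    have h6 : l * (q.1 + p.1 - k) + k * (q.2 + p.2) =
        l * q.1 + k * q.2 + (l * p.1 + k * p.2) - l * k := by
      have h7 : l * (q.1 + p.1 - k) + l * k = l * (q.1 + p.1) := by
        rw [← mul_add]; congr 1; omega
      have h8 : l * (q.1 + p.1) = l * q.1 + l * p.1 := mul_add _ _ _
      have h9 : k * (q.2 + p.2) = k * q.2 + k * p.2 := mul_add _ _ _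
      omega
    rw [← h6]
    exact h5
  have hle : (F (j + 1) + Y).card ≤ (F j).card := by
    apply Finset.card_le_card_of_injOn (fun s => s - l * k)
    · intro s hs
      exact (hsub s hs).2
    · intro a ha b hb h
      have h5 := (hsub a ha).1
      have h6 := (hsub b hb).1
      simp only at h
      omega
  have h5 := card_dl k l hlk
  rw [hYc, hFc] at hcd
  rw [hFc] at hle
  omega

end Pool.MP_70e04f_ag.Std3
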