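import Pool.Agent.Lib_MP_70e04f_std.Card
import Pool.Agent.Lib_MP_70e04f_std.First
import Pool.Agent.Lib_MP_70e04f_std.Sumset

/-!
# The hexagon with the curve `y ^ u = x ^ (u + v)`, general roles of the three corners
-/

namespace Pool.MP_70e04f_ag.Std3

open Pool.MP_70e04f_ag.Hex

lemma exists_bezout {u v : ℕ} (hu : 1 ≤ u) (hv : 1 ≤ v) (hcop : Nat.Coprime u v) :
    ∃ k' l' : ℕ, u * k' = (u + v) * l' + 1 := by
  have h1 : Nat.Coprime u (u + v) := by
    rw [Nat.coprime_self_add_right]; exact hcop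
  obtain ⟨a, -, ha⟩ := Nat.exists_mul_mod_eq_one_of_coprime h1 (by omega)
  refine ⟨a, u * a / (u + v), ?_⟩
  have := Nat.div_add_mod (u * a) (u + v)
  omega

/-- The hexagon with small points outside. -/
theorem hex_std {n : ℕ} (u v m s M A B g e : ℕ) (mm : Fin n → ℕ) (hu : 1 ≤ u) (hv : 1 ≤ v)
    (hcop : Nat.Coprime u v) (h7 : 7 * m + s < 2 * (u * v)) (hM : 2 * m ≤ M)
    (hmm : ∀ i, mm i ≤ M) (hs : (Finset.univ.filter (fun i => m < mm i)).card ≤ s)
    (hA : (u + v) * (M + 1) ≤ A + 1) (hB : u * (M + 1) ≤ B + 1)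
    (hV : g + e + v * (M + 1) ≤ A + B + 1) (hg : g ≤ B + 1) (he : e ≤ B + 1) :
    OK (hex A B g e) mm := by
  obtain ⟨k', l', hkl⟩ := exists_bezout hu hv hcop
  obtain ⟨k, hk⟩ : ∃ k, k = u + v := ⟨_, rfl⟩
  rw [← hk] at hkl hA
  have huk : u ≤ k := by omega
  obtain ⟨r0, c0, P, Q, φ, f1, f2, f3, f4⟩ := exists_fibres k u k' l' hkl A B g e
  obtain ⟨H, hH⟩ : ∃ H : ℕ → ℕ, H = fun j => (hexJ k u A B g e j).card := ⟨_, rfl⟩
  obtain ⟨nr, hnr⟩ : ∃ nr : ℕ → ℕ, nr = fun j => rowc Q j := ⟨_, rfl⟩
  have hnr' : ∀ j, nr j + H (j + 1) = H j := by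
    intro j
    rw [hnr, hH]
    exact f4 j
  have huv : 1 ≤ u * v := Nat.mul_pos hu hv
  -- the sumset bound
  have hdown : ∀ j, 1 ≤ nr (j + 1) → nr (j + 1) + (u * v + u + v) ≤ nr j + 1 := by
    intro j hj
    rw [hnr] at hj ⊢
    have h1 := rows_sumset hkl huk f1 f2 f3 j hj
    rw [show k - u + 1 = v + 1 by omega] at h1
    have h2 : (u + 1) * (v + 1) = u * v + u + v + 1 := by ring
    rw [h2] at h1
    simp only at hj ⊢
    omega
  have hzero : ∀ j, A < j → nr j = 0 := by
    intro j hj
    have h1 : H j = 0 := by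
      rw [hH]
      apply card_hexJ_zero
      have : j * 1 ≤ j * k := Nat.mul_le_mul_left j (by omega)
      omega
    have := hnr' j
    omega
  -- the values for `j ≤ M + 1`
  have hval : ∀ j, j ≤ M + 1 → 2 * (H j : ℤ) =
      F2 ((A : ℤ) - j * k) ((B : ℤ) - j * u) ((g : ℤ) - j * u) ((e : ℤ) - j * u) := by
    intro j hj
    rw [hH]
    have h1 : j * k ≤ (M + 1) * k := Nat.mul_le_mul_right k hj
    have h2 : j * u ≤ (M + 1) * u := Nat.mul_le_mul_right u hj
    have h3 : j * v ≤ (M + 1) * v := Nat.mul_le_mul_right v hj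
    have h4 : j * k = j * u + j * v := by rw [hk]; ring
    have e1 : (M + 1) * k = k * (M + 1) := Nat.mul_comm _ _
    have e2 : (M + 1) * u = u * (M + 1) := Nat.mul_comm _ _
    have e3 : (M + 1) * v = v * (M + 1) := Nat.mul_comm _ _
    exact two_card_hexJ' k u A B g e j huk (by omega) (by omega) hg he (by omega)
  have hmid : ∀ j, j + 1 ≤ M → 2 * ((nr j : ℤ) - nr (j + 1)) =
      S2 k u ((A : ℤ) - j * k) ((B : ℤ) - j * u) ((g : ℤ) - j * u) ((e : ℤ) - j * u) := by
    intro j hj
    have h1 := hval j (by omega)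
    have h2 := hval (j + 1) (by omega)
    have h3 := hval (j + 2) (by omega)
    have h5 : (nr j : ℤ) + H (j + 1) = H j := by exact_mod_cast hnr' j
    have h6 : (nr (j + 1) : ℤ) + H (j + 2) = H (j + 1) := by exact_mod_cast hnr' (j + 1)
    unfold S2
    push_cast at h2 h3
    rw [show (A : ℤ) - j * k - k = A - (j + 1) * k by ring,
      show (B : ℤ) - j * u - u = B - (j + 1) * u by ring,
      show (g : ℤ) - j * u - u = g - (j + 1) * u by ring,
      show (e : ℤ) - j * u - u = e - (j + 1) * u by ring,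
      show (A : ℤ) - j * k - 2 * k = A - (j + 2) * k by ring,
      show (B : ℤ) - j * u - 2 * u = B - (j + 2) * u by ring,
      show (g : ℤ) - j * u - 2 * u = g - (j + 2) * u by ring,
      show (e : ℤ) - j * u - 2 * u = e - (j + 2) * u by ring, ← h1, ← h2, ← h3]
    linarith
  have hslope1 : ∀ j, j < M → nr (j + 1) + 2 * (u * v) ≤ nr j := by
    intro j hj
    have h2 := hmid j (by omega)
    have h3 := S2_ge k u ((A : ℤ) - j * k) ((B : ℤ) - j * u) ((g : ℤ) - j * u)
      ((e : ℤ) - j * u) (by omega) (by omega)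
    have h4 : (4 : ℤ) * u * (k - u) = 2 * (2 * (u * v)) := by
      rw [hk]; push_cast; ring
    rw [h4, ← h2] at h3
    have h5 : ((nr (j + 1) + 2 * (u * v) : ℕ) : ℤ) ≤ nr j := by
      push_cast
      linarith
    exact_mod_cast h5
  -- the row `M`
  have hrowM : u * v ≤ nr M := by
    have h1 := hval M (by omega)
    have h2 := hval (M + 1) le_rfl
    have h5 : (nr M : ℤ) + H (M + 1) = H M := by exact_mod_cast hnr' M
    have hAz : ((u : ℤ) + v) * (M + 1) ≤ A + 1 := by
      rw [hk] at hA
      exact_mod_cast hA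
    have hBz : (u : ℤ) * (M + 1) ≤ B + 1 := by exact_mod_cast hB
    have hVz : (g : ℤ) + e + v * (M + 1) ≤ A + B + 1 := by exact_mod_cast hV
    have hgz : (g : ℤ) ≤ B + 1 := by exact_mod_cast hg
    have hez : (e : ℤ) ≤ B + 1 := by exact_mod_cast he
    have hkz : (k : ℤ) = u + v := by rw [hk]; push_cast; ring
    have huz : (1 : ℤ) ≤ u := by exact_mod_cast hu
    have hvz : (1 : ℤ) ≤ v := by exact_mod_cast hv
    have h7 := first_diff ((A : ℤ) - (M + 1) * k + 1) ((B : ℤ) - (M + 1) * u + 1)
      ((g : ℤ) - (M + 1) * u) ((e : ℤ) - (M + 1) * u) u v (by rw [hkz]; linarith) (by linarith)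
      huz hvz (by linarith) (by linarith) (by rw [hkz]; linarith)
    push_cast at h2
    rw [show (A : ℤ) - (M + 1) * k + 1 - 1 + (u + v) = A - M * k by rw [hkz]; ring,
      show (B : ℤ) - (M + 1) * u + 1 - 1 + u = B - M * u by ring,
      show (g : ℤ) - (M + 1) * u + u = g - M * u by ring,
      show (e : ℤ) - (M + 1) * u + u = e - M * u by ring,
      show (A : ℤ) - (M + 1) * k + 1 - 1 = A - (M + 1) * k by ring,
      show (B : ℤ) - (M + 1) * u + 1 - 1 = B - (M + 1) * u by ring, ← h1, ← h2] at h7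
    have h8 : ((u * v : ℕ) : ℤ) ≤ nr M := by
      push_cast
      linarith
    exact_mod_cast h8
  -- the last row
  obtain ⟨be, hbe⟩ : ∃ be, be = Nat.findGreatest (fun j => 1 ≤ nr j) A := ⟨_, rfl⟩
  have hMA : M ≤ A := by
    by_contra hcon
    have := hzero M (by omega)
    omega
  have hMbe : M ≤ be := by
    rw [hbe]
    apply Nat.le_findGreatest hMA
    omega
  have hbe1 : 1 ≤ nr be := by
    have h1 : 1 ≤ nr M := by omega
    have := Nat.findGreatest_spec (P := fun j => 1 ≤ nr j) hMA h1
    rwa [← hbe] at this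
  have hbe2 : ∀ j, be < j → nr j = 0 := by
    intro j hj
    rcases Nat.lt_or_ge A j with h | h
    · exact hzero j h
    · rw [hbe] at hj
      have := Nat.findGreatest_is_greatest hj h
      omega
  have hpos : ∀ x, ∀ j, j + x = be → 1 ≤ nr j := by
    intro x
    induction x with
    | zero => intro j hj; rw [show j = be by omega]; exact hbe1
    | succ x ih =>
      intro j hj
      have h1 := ih (j + 1) (by omega)
      have h2 := hdown j h1
      omega
  have hact := fun j => act_le mm m j s hs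
  have hact0 : ∀ j, M ≤ j → act mm m j = 0 := by
    intro j hj
    unfold act
    rw [Finset.card_eq_zero, Finset.filter_eq_empty_iff]
    intro i _ h
    have := hmm i
    omega
  obtain ⟨b, c, g1, -, g3⟩ := fill_abstract mm m be nr (by omega) (fun i => (hmm i).trans hMbe)
    hbe2
    (by
      have h1 := peak_aux mm m M nr (2 * m) (fun j _ hj => by
          have := hslope1 j hj
          have := hact j
          omega) hmm (M - 2 * m) (2 * m) le_rfl (by omega)
      omega)
    (by
      intro j hj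
      have h2 := hact j
      rcases Nat.lt_or_ge j M with h | h
      · have h1 := hslope1 j h
        unfold act at h2
        omega
      · have h1 := hdown j (hpos (be - (j + 1)) (j + 1) (by omega))
        have h3 := hact0 j h
        unfold act at h3
        omega)
    (by
      intro j hj
      have h1 := hslope1 j (by omega)
      have h2 := hact j
      unfold act at h2
      omega)
    (by
      intro j hj
      have h1 := hmid j (by omega)
      have h2 := hmid (j + 1) (by omega)
      have h3 := S2_mono k u ((A : ℤ) - j * k) ((B : ℤ) - j * u) ((g : ℤ) - j * u)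
        ((e : ℤ) - j * u) (by omega) (by omega)
      push_cast at h2
      rw [show (A : ℤ) - j * k - k = A - (j + 1) * k by ring,
        show (B : ℤ) - j * u - u = B - (j + 1) * u by ring,
        show (g : ℤ) - j * u - u = g - (j + 1) * u by ring,
        show (e : ℤ) - j * u - u = e - (j + 1) * u by ring, ← h1, ← h2] at h3
      have e : j + 1 + 1 = j + 2 := rfl
      rw [e] at h3
      have h8 : ((nr j + nr (j + 2) : ℕ) : ℤ) ≤ ((2 * nr (j + 1) : ℕ) : ℤ) := by
        push_cast
        linarith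
      exact_mod_cast h8)
  refine hex_front k u k' l' hkl A B g e mm b c g1 nr ?_ g3
  intro j
  have := hnr' j
  rw [hH] at this
  exact this

end Pool.MP_70e04f_ag.Std3
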